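/-
MP_1e2081_pr, Q2: the balanced multi-urn chain moving `k` balls per urn, `k` of order `n`.

`d` urns, `d` colours, `n` balls per urn and per colour, at rate 1 a permutation `σ` with law `μ` and
uniformly random sets of `k` balls of the urns are chosen and the chosen balls move from urn `i` to urn
`σ i`. `Defs.lean`: states, `ring` (transition matrix of one ring), `law`, `dn`, `tmix`.

* Cutoff: for every `d ≥ 2`, every `μ` with irreducible `U`, every `0 < l < 1` for which the matrices
  `(1 - l) I + l P_σ` (`μ σ > 0`) are invertible (so for every `l ≠ 1/2`), and every sequence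
  `k_n = l n + O(1)`: cutoff around `log n / (2 θ)`, `-θ < 0` the exponent of growth of the products of
  independent such random matrices on the vectors with sum zero.
* Order: for every sequence with `c n ≤ k_n ≤ (1 - c) n` the mixing time is `O(log n)` (the distance is
  at most `ε` at all times `t ≥ K log n`); if moreover `|2 k_n - n| ≥ c n` it is of order `log n`.
* The assertion of Q2 for all sequences is false: for `d = 2`, `μ` the transposition and `k_n = n / 2`
  there is no cutoff, and the mixing time is bounded along the even `n` (the distance is at most `ε` at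
  a time which does not depend on `n`).

Proof of the sharp upper bound. Three stages: (1) at time `(1 + ε / 2) log n / (2 θ)` the conditional means
given the permutations are within `√n` of the equilibrium, and so is the state by second moments;
(2) during `δ log n` rings Lipschitz functions of the state become more regular by a factor `n ^ (-δ')`
(two marked balls in different urns meet); (3) during the last `δ log n` rings every bounded function
becomes Lipschitz with constant `n ^ (-1/2)` up to logarithms in the bulk: the two marked balls can be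
transferred between urns at a cost `O(1 / √n)` in total variation (exchange identity for
hypergeometric variables). The lower bound is a second moment estimate for the products of matrices
(Fekete's lemma and large deviations for submultiplicative functions of independent variables). The
counterexample is a minorization after two rings (local lower bound for hypergeometric variables).

Parts proved by helper96 (labelled configurations, exchange of two balls, transfer, order and
counterexample in continuous time), helper76 (exchange identity, reachability, minorization, final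
cutoff), helper70 (resampling, hypergeometric moments, contraction), helper50 (second moments,
smoothing, meeting of two marked balls), helper87 (matrices, mean square contraction, states and
configurations, rules), helper42 (Lipschitz functions, mixing in `O(log n)`), helper15 (exponent),
helper78 (lower bound, typical states), helper24 (continuous time, iteration), helper40 (binomial
coefficients, local lower bound), helper56 (Poisson tails, stationary distributions), helper38.
-/
import Pool.Agent.L7h38.UC.Up2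

namespace Pool.Agent.Results.MP_1e2081_pr.CutoffLinearMoves

open Pool.Agent.L7h38.UC Filter Topology

theorem result :
    -- stationary distributions exist
    (∀ (d n k : ℕ) (μ : Equiv.Perm (Fin d) → ℝ), Pr μ → k ≤ n →
      ∃ π : St d n → ℝ, Stationary μ k π) ∧
    -- cutoff for `k n = l n + O(1)`
    (∀ (d : ℕ) (μ : Equiv.Perm (Fin d) → ℝ) (l : ℝ), 2 ≤ d → Pr μ → Irr μ → 0 < l → l < 1 →
      (∀ σ, 0 < μ σ → ∀ B : Fin d → Fin d → ℝ, ms l σ B = 0 → B = 0) →
      ∃ θ : ℝ, 0 < θ ∧
        Tendsto (fun N : ℕ => EW μ N (fun w => Real.log (fw l w)) / N) atTop (𝓝 (-θ)) ∧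
        ∀ (C : ℝ) (k : ℕ → ℕ), (∀ n : ℕ, |(k n : ℝ) - l * n| ≤ C) →
          ∀ π : ∀ n : ℕ, St d n → ℝ, (∀ n, Stationary μ (k n) (π n)) →
            ∀ ε : ℝ, 0 < ε → ε < 1 →
              Tendsto (fun n : ℕ => tmix μ (k n) (π n) ε / (Real.log n / (2 * θ))) atTop (𝓝 1)) ∧
    -- the matrices are invertible for `l ≠ 1 / 2`
    (∀ (d : ℕ) (l : ℝ), 0 < l → l < 1 → l ≠ 1 / 2 → ∀ (σ : Equiv.Perm (Fin d))
      (B : Fin d → Fin d → ℝ), ms l σ B = 0 → B = 0) ∧
    -- order `log n` for general sequences
    (∀ (d : ℕ) (μ : Equiv.Perm (Fin d) → ℝ), 2 ≤ d → Pr μ → Irr μ → ∀ c : ℝ, 0 < c →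
      ∃ K κ : ℝ, 0 < K ∧ 0 < κ ∧ ∀ k : ℕ → ℕ,
        (∀ᶠ n : ℕ in atTop, c * n ≤ k n ∧ (k n : ℝ) ≤ (1 - c) * n) →
        ∀ π : ∀ n : ℕ, St d n → ℝ, (∀ n, Stationary μ (k n) (π n)) → ∀ ε : ℝ, 0 < ε → ε < 1 →
          (∀ᶠ n : ℕ in atTop, (∀ t : ℝ, K * Real.log n ≤ t → dn μ (k n) (π n) t ≤ ε) ∧
            tmix μ (k n) (π n) ε ≤ K * Real.log n) ∧
          ((∀ᶠ n : ℕ in atTop, c * n ≤ |2 * (k n : ℝ) - n|) →
            ∀ᶠ n : ℕ in atTop, κ * Real.log n ≤ tmix μ (k n) (π n) ε)) ∧
    -- `d = 2`, the transposition, `k n = n / 2`: bounded along even `n`, and no cutoff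
    (∀ π : ∀ n : ℕ, St 2 n → ℝ, (∀ n, Stationary mu2 (n / 2) (π n)) →
      (∀ ε : ℝ, 0 < ε → ∃ (T : ℝ) (m0 : ℕ), 0 ≤ T ∧ ∀ m : ℕ, m0 ≤ m →
        dn mu2 (2 * m / 2) (π (2 * m)) T ≤ ε ∧ tmix mu2 (2 * m / 2) (π (2 * m)) ε ≤ T) ∧
      ¬ ∀ ε : ℝ, 0 < ε → ε < 1 → Tendsto (fun n : ℕ =>
        tmix mu2 (n / 2) (π n) ε / tmix mu2 (n / 2) (π n) (1 - ε)) atTop (𝓝 1)) ∧
    -- so the assertion of Q2 is false
    ¬ (∀ (d : ℕ) (μ : Equiv.Perm (Fin d) → ℝ), 2 ≤ d → Pr μ → Irr μ → ∀ c : ℝ, 0 < c →
      c < 1 / 2 → ∀ k : ℕ → ℕ,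
        (∀ᶠ n : ℕ in atTop, c * n ≤ k n ∧ (k n : ℝ) ≤ (1 - c) * n) →
        ∀ π : ∀ n : ℕ, St d n → ℝ, (∀ n, Stationary μ (k n) (π n)) →
          (∀ ε : ℝ, 0 < ε → ε < 1 → Tendsto (fun n : ℕ =>
            tmix μ (k n) (π n) ε / tmix μ (k n) (π n) (1 - ε)) atTop (𝓝 1)) ∧
          ∃ K κ : ℝ, 0 < K ∧ 0 < κ ∧ ∀ᶠ n : ℕ in atTop,
            κ * Real.log n ≤ tmix μ (k n) (π n) (1 / 4) ∧
            tmix μ (k n) (π n) (1 / 4) ≤ K * Real.log n) := by
  refine ⟨All.EXS, ?_, ?_, All.FINB2, All.FINC2, All.not_Q2⟩
  · intro d μ l hd hμ hI h0 h1 hV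
    obtain ⟨θ, hθ, hE, h⟩ := All.FINA d μ l hd hμ hI h0 h1 hV
    exact ⟨θ, hθ, hE, fun C k hk π hπ ε hε hε1 => h C k hk π hπ ε hε hε1⟩
  · intro d l h0 h1 hl σ B hB
    have h2 := Pool.Agent.L7h96.UC.nf2_ms l h0.le h1.le σ B
    rw [hB] at h2
    have h3 : nf2 (0 : Fin d → Fin d → ℝ) = 0 := by simp [nf2]
    rw [h3] at h2
    have h4 : 0 < (1 - 2 * l) ^ 2 := by
      apply sq_pos_of_ne_zero
      intro h
      apply hl
      linarith
    have h5 : nf2 B ≤ 0 := by
      by_contra hc
      push Not at hc
      have := mul_pos h4 hc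
      linarith
    funext i j
    have h6 : B i j ^ 2 ≤ 0 := by
      refine le_trans ?_ h5
      calc B i j ^ 2 ≤ ∑ j, B i j ^ 2 :=
            Finset.single_le_sum (f := fun j => B i j ^ 2) (fun j _ => sq_nonneg _)
              (Finset.mem_univ j)
        _ ≤ nf2 B := Finset.single_le_sum (f := fun i => ∑ j, B i j ^ 2)
            (fun i _ => Finset.sum_nonneg fun j _ => sq_nonneg _) (Finset.mem_univ i)
    have h7 : B i j = 0 := by
      have := sq_nonneg (B i j)
      nlinarith
    rw [h7]
    rfl

end Pool.Agent.Results.MP_1e2081_pr.CutoffLinearMoves
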